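import Mathlib
import Pool.Agent.H47.CP.Defs

/-! # Crew CP, part CPB (helper55) -/

set_option autoImplicit false

open Filter Topology Set
open scoped Uniformity

namespace Pool.Agent.H47.CP

/-- CPB -/
theorem linear_embedding {Y : Type} [TopologicalSpace Y] [CompactSpace Y] [T2Space Y]
    {D : Type} [TopologicalSpace D] [DiscreteTopology D] [Infinite D] (U : D → Set Y)
    (hU : ∀ a, IsOpen (U a)) (hne : ∀ a, (U a).Nonempty)
    (hdis : Pairwise (fun a b => Disjoint (U a) (U b))) :
    ∃ e : Cp (OnePoint D) → Cp Y, Topology.IsEmbedding e ∧ IsLin e := by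
  classical
  choose y hy using hne
  have huniq : ∀ a b z, z ∈ U a → z ∈ U b → a = b := by
    intro a b z ha hb
    by_contra hab
    exact Set.disjoint_left.1 (hdis hab) ha hb
  have hury : ∀ a, ∃ u : C(Y, ℝ), (∀ z, z ∉ U a → u z = 0) ∧ u (y a) = 1 ∧
      ∀ z, 0 ≤ u z ∧ u z ≤ 1 := by
    intro a
    obtain ⟨u, h0, h1, h2⟩ := exists_continuous_zero_one_of_isClosed (hU a).isClosed_compl
      (isClosed_singleton (x := y a)) (by
        rw [Set.disjoint_singleton_right]
        exact fun h => h (hy a))
    exact ⟨u, fun z hz => h0 hz, h1 (Set.mem_singleton _), fun z => h2 z⟩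
  choose u hu0 hu1 hu2 using hury
  -- the map
  let ev : (OnePoint D → ℝ) → Y → ℝ := fun f z =>
    if h : ∃ a, z ∈ U a then f OnePoint.infty + (f ((h.choose : D) : OnePoint D) - f OnePoint.infty) * u h.choose z
    else f OnePoint.infty
  have ev1 : ∀ (f : OnePoint D → ℝ) (z : Y) (a : D), z ∈ U a →
      ev f z = f OnePoint.infty + (f (a : OnePoint D) - f OnePoint.infty) * u a z := by
    intro f z a hz
    have h : ∃ a, z ∈ U a := ⟨a, hz⟩
    have hch : h.choose = a := huniq _ _ z h.choose_spec hz
    simp only [ev, dif_pos h, hch]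
  have ev2 : ∀ (f : OnePoint D → ℝ) (z : Y), (∀ a, z ∉ U a) → ev f z = f OnePoint.infty := by
    intro f z hz
    have h : ¬ ∃ a, z ∈ U a := fun ⟨a, ha⟩ => hz a ha
    simp only [ev, dif_neg h]
  -- continuity of the images
  have hcont : ∀ f : OnePoint D → ℝ, Continuous f → Continuous (ev f) := by
    intro f hf
    have htend : Tendsto (fun a : D => f (a : OnePoint D)) cofinite (𝓝 (f OnePoint.infty)) := by
      have h1 := (OnePoint.continuousAt_infty' (f := f)).1 hf.continuousAt
      rw [Filter.coclosedCompact_eq_cocompact, Filter.cocompact_eq_cofinite] at h1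
      exact h1
    apply continuous_of_uniform_approx_of_continuous
    intro s hs
    obtain ⟨ε, hε, hεs⟩ := Metric.mem_uniformity_dist.1 hs
    have hfin : {a : D | ¬ dist (f (a : OnePoint D)) (f OnePoint.infty) < ε}.Finite := by
      have := htend (Metric.ball_mem_nhds (f OnePoint.infty) hε)
      rw [Filter.mem_map, Filter.mem_cofinite] at this
      exact this
    refine ⟨fun z => f OnePoint.infty + ∑ a ∈ hfin.toFinset,
      (f (a : OnePoint D) - f OnePoint.infty) * u a z, ?_, fun z => ?_⟩
    · refine continuous_const.add (continuous_finsetSum _ fun a _ => ?_)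
      exact continuous_const.mul (u a).continuous
    · apply hεs
      change dist (ev f z) (f OnePoint.infty + ∑ a ∈ hfin.toFinset,
        (f (a : OnePoint D) - f OnePoint.infty) * u a z) < ε
      by_cases hz : ∃ b, z ∈ U b
      · obtain ⟨b, hb⟩ := hz
        rw [ev1 f z b hb]
        have hother : ∀ a, a ≠ b → (f (a : OnePoint D) - f OnePoint.infty) * u a z = 0 := by
          intro a hab
          rw [hu0 a z (fun ha => hab (huniq a b z ha hb)), mul_zero]
        by_cases hbT : b ∈ hfin.toFinset
        · rw [Finset.sum_eq_single b (fun a _ hab => hother a hab) (fun h => absurd hbT h),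
            dist_self]
          exact hε
        · rw [Finset.sum_eq_zero (fun a ha => hother a (fun h => hbT (h ▸ ha))), add_zero,
            Real.dist_eq]
          have hb2 : dist (f (b : OnePoint D)) (f OnePoint.infty) < ε := by
            by_contra hcon
            exact hbT (hfin.mem_toFinset.2 hcon)
          rw [Real.dist_eq] at hb2
          have h3 : |f OnePoint.infty + (f (b : OnePoint D) - f OnePoint.infty) * u b z -
              f OnePoint.infty| = |f (b : OnePoint D) - f OnePoint.infty| * |u b z| := by
            rw [← abs_mul]; congr 1; ring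
          rw [h3]
          have h4 : |u b z| ≤ 1 := by
            rw [abs_of_nonneg (hu2 b z).1]; exact (hu2 b z).2
          calc |f (b : OnePoint D) - f OnePoint.infty| * |u b z|
              ≤ |f (b : OnePoint D) - f OnePoint.infty| * 1 :=
                mul_le_mul_of_nonneg_left h4 (abs_nonneg _)
            _ < ε := by rw [mul_one]; exact hb2
      · have hz' : ∀ a, z ∉ U a := fun a ha => hz ⟨a, ha⟩
        rw [ev2 f z hz', Finset.sum_eq_zero (fun a _ => by rw [hu0 a z (hz' a), mul_zero]),
          add_zero, dist_self]
        exact hε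
  let e : Cp (OnePoint D) → Cp Y := fun f => ⟨ev f.1, hcont f.1 f.2⟩
  -- the accumulation point
  have hyinj : Function.Injective y := by
    intro a b hab
    exact huniq a b (y a) (hy a) (hab ▸ hy b)
  obtain ⟨yinf, hacc⟩ := (Set.infinite_range_of_injective hyinj).exists_accPt_principal
  rw [accPt_iff_nhds] at hacc
  have hyinf : ∀ b, yinf ∉ U b := by
    intro b hb
    by_cases heq : yinf = y b
    · obtain ⟨w, ⟨hw1, a, rfl⟩, hw2⟩ := hacc (U b) ((hU b).mem_nhds hb)
      have : a = b := huniq a b (y a) (hy a) hw1
      apply hw2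
      rw [this, heq]
    · obtain ⟨w, ⟨hw1, a, rfl⟩, hw2⟩ := hacc (U b ∩ {y b}ᶜ)
        (((hU b).inter isOpen_compl_singleton).mem_nhds ⟨hb, heq⟩)
      have : a = b := huniq a b (y a) (hy a) hw1.1
      apply hw1.2
      rw [this]
      exact Set.mem_singleton _
  let p : OnePoint D → Y := fun x => @Option.elim D Y x yinf y
  have hpe : ∀ (f : Cp (OnePoint D)) (x : OnePoint D), (e f).1 (p x) = f.1 x := by
    intro f x
    induction x using OnePoint.rec with
    | infty => exact ev2 f.1 yinf hyinf
    | coe a =>
      change ev f.1 (y a) = f.1 a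
      rw [ev1 f.1 (y a) a (hy a), hu1 a]
      ring
  refine ⟨e, ?_, ?_⟩
  · have hece : Continuous e := by
      refine Continuous.subtype_mk (continuous_pi fun z => ?_) _
      by_cases hz : ∃ b, z ∈ U b
      · obtain ⟨b, hb⟩ := hz
        have h1 : (fun f : Cp (OnePoint D) => ev f.1 z) = fun f : Cp (OnePoint D) =>
            f.1 OnePoint.infty + (f.1 (b : OnePoint D) - f.1 OnePoint.infty) * u b z := by
          funext f
          exact ev1 f.1 z b hb
        rw [h1]
        have c1 : Continuous fun f : Cp (OnePoint D) => f.1 OnePoint.infty :=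
          (continuous_apply _).comp continuous_subtype_val
        have c2 : Continuous fun f : Cp (OnePoint D) => f.1 (b : OnePoint D) :=
          (continuous_apply _).comp continuous_subtype_val
        exact c1.add ((c2.sub c1).mul continuous_const)
      · have hz' : ∀ a, z ∉ U a := fun a ha => hz ⟨a, ha⟩
        have h1 : (fun f : Cp (OnePoint D) => ev f.1 z) = fun f : Cp (OnePoint D) =>
            f.1 OnePoint.infty := by
          funext f
          exact ev2 f.1 z hz'
        rw [h1]
        exact (continuous_apply _).comp continuous_subtype_val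
    have hg : Continuous (fun F : Cp Y => fun x : OnePoint D => F.1 (p x)) :=
      continuous_pi fun x => (continuous_apply (p x)).comp continuous_subtype_val
    refine Topology.IsEmbedding.of_comp hece hg ?_
    have hcomp : (fun F : Cp Y => fun x : OnePoint D => F.1 (p x)) ∘ e =
        (Subtype.val : Cp (OnePoint D) → (OnePoint D → ℝ)) := by
      funext f
      funext x
      exact hpe f x
    rw [hcomp]
    exact Topology.IsEmbedding.subtypeVal
  · intro a b f g h hlin z
    change ev h.1 z = a * ev f.1 z + b * ev g.1 z
    by_cases hz : ∃ c, z ∈ U c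
    · obtain ⟨c, hc⟩ := hz
      rw [ev1 _ z c hc, ev1 _ z c hc, ev1 _ z c hc, hlin, hlin]
      ring
    · have hz' : ∀ c, z ∉ U c := fun c hc => hz ⟨c, hc⟩
      rw [ev2 _ z hz', ev2 _ z hz', ev2 _ z hz', hlin]

end Pool.Agent.H47.CP
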